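import Mathlib

/-!
# MP_ef0af8_co: the fibration principle, combinatorial core
-/

set_option autoImplicit false

open Finset
open scoped Classical

namespace Pool.Agent.Helper6.FL

/-- number of incidences. -/
noncomputable def inc {α β : Type*} (P : Finset α) (F : Finset β) (R : α → β → Prop) : ℕ :=
  ∑ p ∈ P, ∑ b ∈ F, if R p b then 1 else 0

/-- the bound. -/
noncomputable def bd (n e : ℝ) : ℝ := n ^ (2 / 3 : ℝ) * e ^ (2 / 3 : ℝ) + n + e

section Basic

variable {α β : Type*}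

theorem inc_comm (P : Finset α) (F : Finset β) (R : α → β → Prop) :
    inc P F R = ∑ b ∈ F, ∑ p ∈ P, if R p b then 1 else 0 := by
  unfold inc; exact sum_comm

theorem inc_filter_add (P : Finset α) (F : Finset β) (R : α → β → Prop) (c : β → Prop) :
    inc P F R = inc P (F.filter c) R + inc P (F.filter fun b => ¬ c b) R := by
  unfold inc
  rw [← sum_add_distrib]
  exact sum_congr rfl fun p _ => (sum_filter_add_sum_filter_not F c _).symm

/-- if every point is on at most one member, then the number of incidences is at most `|P|`. -/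
theorem inc_le_left (P : Finset α) (F : Finset β) (R : α → β → Prop)
    (h : ∀ p ∈ P, ∀ b ∈ F, ∀ b' ∈ F, R p b → R p b' → b = b') : inc P F R ≤ P.card := by
  unfold inc
  rw [card_eq_sum_ones]
  refine sum_le_sum fun p hp => ?_
  rw [← sum_filter, ← card_eq_sum_ones, card_le_one]
  intro b hb b' hb'
  rw [mem_filter] at hb hb'
  exact h p hp b hb.1 b' hb'.1 hb.2 hb'.2

/-- if every member has at most one point, then the number of incidences is at most `|F|`. -/
theorem inc_le_right (P : Finset α) (F : Finset β) (R : α → β → Prop)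
    (h : ∀ b ∈ F, (P.filter fun p => R p b).card ≤ 1) : inc P F R ≤ F.card := by
  rw [inc_comm, card_eq_sum_ones]
  refine sum_le_sum fun b hb => ?_
  rw [← sum_filter, ← card_eq_sum_ones]
  exact h b hb

theorem bd_nonneg {n e : ℝ} (hn : 0 ≤ n) (he : 0 ≤ e) : 0 ≤ bd n e := by
  unfold bd; positivity

end Basic

/-- number of members with two points. -/
theorem card_two {α β : Type*} (P : Finset α) (F : Finset β) (R : α → β → Prop)
    (h5 : ∀ b ∈ F, ∀ b' ∈ F, b ≠ b' → ∀ p ∈ P, ∀ p' ∈ P, R p b → R p b' → R p' b → R p' b' → p = p')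
    (h2 : ∀ b ∈ F, 2 ≤ (P.filter fun p => R p b).card) : F.card ≤ P.card ^ 2 := by
  have hex : ∀ b ∈ F, ∃ z : α × α, z.1 ∈ P ∧ z.2 ∈ P ∧ z.1 ≠ z.2 ∧ R z.1 b ∧ R z.2 b := by
    intro b hb
    obtain ⟨x, hx, y, hy, hxy⟩ := one_lt_card.1 (lt_of_lt_of_le one_lt_two (h2 b hb))
    rw [mem_filter] at hx hy
    exact ⟨(x, y), hx.1, hy.1, hxy, hx.2, hy.2⟩
  rcases F.eq_empty_or_nonempty with rfl | ⟨b0, hb0⟩
  · simp
  have : Nonempty (α × α) := ⟨(hex b0 hb0).choose⟩
  choose! z hz using hex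
  rw [sq, ← card_product]
  refine card_le_card_of_injOn z (fun b hb => ?_) ?_
  · have := hz b hb
    rw [mem_coe, mem_product]
    exact ⟨this.1, this.2.1⟩
  · intro b hb b' hb' hzz
    by_contra hne
    obtain ⟨h1, h2', h3, h4, h6⟩ := hz b hb
    obtain ⟨-, -, -, h4', h6'⟩ := hz b' hb'
    rw [← hzz] at h4' h6'
    exact h3 (h5 b hb b' hb' hne _ h1 _ h2' h4 h4' h6 h6')

/-- Hoelder. -/
theorem holder {ι : Type*} (s : Finset ι) (a w : ι → ℝ) (ha : ∀ i ∈ s, 0 ≤ a i)
    (hw : ∀ i ∈ s, 0 ≤ w i) :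
    ∑ i ∈ s, a i ^ (2 / 3 : ℝ) * w i ^ (2 / 3 : ℝ) ≤
      (∑ i ∈ s, a i) ^ (2 / 3 : ℝ) * (∑ i ∈ s, w i ^ 2) ^ (1 / 3 : ℝ) := by
  have hpq : Real.HolderConjugate (3 / 2 : ℝ) 3 := by
    rw [Real.holderConjugate_iff]; norm_num
  have h := Real.inner_le_Lp_mul_Lq_of_nonneg s hpq (f := fun i => a i ^ (2 / 3 : ℝ))
    (g := fun i => w i ^ (2 / 3 : ℝ)) (fun i hi => Real.rpow_nonneg (ha i hi) _)
    (fun i hi => Real.rpow_nonneg (hw i hi) _)
  have e1 : ∑ i ∈ s, (a i ^ (2 / 3 : ℝ)) ^ (3 / 2 : ℝ) = ∑ i ∈ s, a i := by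
    refine sum_congr rfl fun i hi => ?_
    rw [← Real.rpow_mul (ha i hi)]; norm_num
  have e2 : ∑ i ∈ s, (w i ^ (2 / 3 : ℝ)) ^ (3 : ℝ) = ∑ i ∈ s, w i ^ 2 := by
    refine sum_congr rfl fun i hi => ?_
    rw [← Real.rpow_mul (hw i hi), ← Real.rpow_natCast]; norm_num
  rw [e1, e2, show (1 : ℝ) / (3 / 2) = 2 / 3 by norm_num] at h
  exact h

/-- `∑ t ^ (-4/3)`. -/
theorem sum_t : ∃ K : ℝ, 0 ≤ K ∧ ∀ M : ℕ, ∑ t ∈ Icc 1 M, (t : ℝ) ^ (-(4 / 3) : ℝ) ≤ K := by
  have hs : Summable fun t : ℕ => (t : ℝ) ^ (-(4 / 3) : ℝ) := by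
    rw [Real.summable_nat_rpow]; norm_num
  exact ⟨∑' t : ℕ, (t : ℝ) ^ (-(4 / 3) : ℝ), tsum_nonneg fun t => by positivity,
    fun M => hs.sum_le_tsum _ fun t _ => by positivity⟩

/-! ### the fibre over one point of the base -/

section Fibre

variable {α β δ : Type*}

/-- The estimate over one point of the base.  `T` = members over `q`, `lam` = base member,
`u` = number of members over the same base member. -/
theorem fibre (C : ℝ) (hC : 0 ≤ C) (Pq : Finset α) (F : Finset β) (R : α → β → Prop) (lam : β → δ)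
    (io : δ → Prop)
    (h1 : ∀ p ∈ Pq, ∀ b ∈ F, ∀ b' ∈ F, lam b = lam b' → R p b → R p b' → b = b')
    (hR : ∀ p ∈ Pq, ∀ b ∈ F, R p b → io (lam b))
    (h4 : ∀ F' ⊆ F, (∀ b ∈ F', io (lam b)) → (inc Pq F' R : ℝ) ≤ C * bd Pq.card F'.card)
    (h5 : ∀ b ∈ F, ∀ b' ∈ F, b ≠ b' → ∀ p ∈ Pq, ∀ p' ∈ Pq,
      R p b → R p b' → R p' b → R p' b' → p = p') :
    ∃ w : ℝ, 0 ≤ w ∧ w ^ 2 ≤ (((F ×ˢ F).filter fun z => io (lam z.1) ∧ io (lam z.2) ∧
        lam z.1 ≠ lam z.2).card : ℝ) ∧
      (inc Pq F R : ℝ) ≤ Pq.card + C * (2 * ((Pq.card : ℝ) ^ (2 / 3 : ℝ) * w ^ (2 / 3 : ℝ)) +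
        Pq.card) +
        ∑ L ∈ (F.image lam).filter io, ((min Pq.card (F.filter fun b => lam b = L).card : ℕ) : ℝ) := by
  set T := F.filter fun b => io (lam b) with hT
  -- only the members over `q` matter
  have hTinc : inc Pq F R = inc Pq T R := by
    rw [inc_filter_add Pq F R fun b => io (lam b)]
    have : inc Pq (F.filter fun b => ¬ io (lam b)) R = 0 := by
      unfold inc
      refine sum_eq_zero fun p hp => sum_eq_zero fun b hb => ?_
      rw [mem_filter] at hb
      rw [if_neg fun h => hb.2 (hR p hp b hb.1 h)]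
    rw [this, add_zero]
  set u : δ → ℕ := fun L => (F.filter fun b => lam b = L).card with hu
  -- the heaviest base member
  obtain ⟨Ls, hLs⟩ : ∃ Ls : Set δ, (∀ b ∈ T, lam b ∈ Ls → ∀ b' ∈ T, lam b' ∈ Ls → lam b = lam b') ∧
      (T.Nonempty → ∃ b ∈ T, lam b ∈ Ls ∧ ∀ b' ∈ T, u (lam b') ≤ u (lam b)) := by
    rcases T.eq_empty_or_nonempty with h | h
    · refine ⟨∅, ?_, ?_⟩
      · intro b _ hb; exact absurd hb (Set.notMem_empty _)
      · intro h'; rw [h] at h'; exact absurd h' not_nonempty_empty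
    · obtain ⟨b, hb, hmax⟩ := exists_max_image T (fun b => u (lam b)) h
      refine ⟨{lam b}, ?_, fun _ => ⟨b, hb, rfl, hmax⟩⟩
      intro b1 _ h1 b2 _ h2
      rw [Set.mem_singleton_iff] at h1 h2
      rw [h1, h2]
  set Ts := T.filter fun b => lam b ∈ Ls with hTs
  set T' := T.filter fun b => ¬ lam b ∈ Ls with hT'
  set w : ℝ := ((T'.card : ℕ) : ℝ) with hw
  -- (a)
  have ha : inc Pq Ts R ≤ Pq.card := by
    refine inc_le_left _ _ _ fun p hp b hb b' hb' hb1 hb2 => ?_
    rw [hTs, mem_filter] at hb hb'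
    have hb0 := hb.1
    have hb0' := hb'.1
    rw [hT, mem_filter] at hb0 hb0'
    exact h1 p hp b hb0.1 b' hb0'.1 (hLs.1 b hb.1 hb.2 b' hb'.1 hb'.2) hb1 hb2
  set T2 := T'.filter fun b => 2 ≤ (Pq.filter fun p => R p b).card with hT2
  set T1 := T'.filter fun b => ¬ 2 ≤ (Pq.filter fun p => R p b).card with hT1
  have hsplit : inc Pq F R = inc Pq Ts R + (inc Pq T2 R + inc Pq T1 R) := by
    have e1 : inc Pq T R = inc Pq Ts R + inc Pq T' R := by
      convert inc_filter_add Pq T R fun b => lam b ∈ Ls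
    have e2 : inc Pq T' R = inc Pq T2 R + inc Pq T1 R := by
      convert inc_filter_add Pq T' R fun b => 2 ≤ (Pq.filter fun p => R p b).card
    rw [hTinc, e1, e2]
  have hT2F : T2 ⊆ F := (filter_subset _ _).trans ((filter_subset _ _).trans (filter_subset _ _))
  have hT1F : T1 ⊆ F := (filter_subset _ _).trans ((filter_subset _ _).trans (filter_subset _ _))
  -- (b)
  have hb : (inc Pq T2 R : ℝ) ≤ C * (2 * ((Pq.card : ℝ) ^ (2 / 3 : ℝ) * w ^ (2 / 3 : ℝ)) +
      Pq.card) := by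
    have hio : ∀ b ∈ T2, io (lam b) := by
      intro b hb
      have := (mem_filter.1 (mem_filter.1 hb).1).1
      exact (mem_filter.1 this).2
    refine (h4 T2 hT2F hio).trans (mul_le_mul_of_nonneg_left ?_ hC)
    have hc1 : T2.card ≤ Pq.card ^ 2 := by
      refine card_two Pq T2 R (fun b hb b' hb' => h5 b (hT2F hb) b' (hT2F hb')) fun b hb => ?_
      exact (mem_filter.1 hb).2
    have hc2 : T2.card ≤ T'.card := card_le_card (filter_subset _ _)
    have hc1' : (T2.card : ℝ) ≤ (Pq.card : ℝ) ^ 2 := by exact_mod_cast hc1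
    have hc2' : (T2.card : ℝ) ≤ w := by rw [hw]; exact_mod_cast hc2
    have h0 : (0 : ℝ) ≤ T2.card := Nat.cast_nonneg _
    have h0' : (0 : ℝ) ≤ Pq.card := Nat.cast_nonneg _
    have e1 : (T2.card : ℝ) ≤ (Pq.card : ℝ) ^ (2 / 3 : ℝ) * (T2.card : ℝ) ^ (2 / 3 : ℝ) := by
      calc (T2.card : ℝ) = (T2.card : ℝ) ^ (1 / 3 : ℝ) * (T2.card : ℝ) ^ (2 / 3 : ℝ) := by
            rw [← Real.rpow_add' h0 (by norm_num)]; norm_num
        _ ≤ ((Pq.card : ℝ) ^ 2) ^ (1 / 3 : ℝ) * (T2.card : ℝ) ^ (2 / 3 : ℝ) :=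
            mul_le_mul_of_nonneg_right (Real.rpow_le_rpow h0 hc1' (by norm_num))
              (Real.rpow_nonneg h0 _)
        _ = _ := by
            rw [← Real.rpow_natCast, ← Real.rpow_mul h0']; norm_num
    have e2 : (T2.card : ℝ) ^ (2 / 3 : ℝ) ≤ w ^ (2 / 3 : ℝ) :=
      Real.rpow_le_rpow h0 hc2' (by norm_num)
    have e3 : (Pq.card : ℝ) ^ (2 / 3 : ℝ) * (T2.card : ℝ) ^ (2 / 3 : ℝ) ≤
        (Pq.card : ℝ) ^ (2 / 3 : ℝ) * w ^ (2 / 3 : ℝ) :=
      mul_le_mul_of_nonneg_left e2 (Real.rpow_nonneg h0' _)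
    unfold bd
    linarith
  -- (c)
  have hc : (inc Pq T1 R : ℝ) ≤ ∑ L ∈ (F.image lam).filter io,
      ((min Pq.card (F.filter fun b => lam b = L).card : ℕ) : ℝ) := by
    have e1 : inc Pq T1 R = ∑ L ∈ (F.image lam).filter io, inc Pq (T1.filter fun b => lam b = L) R := by
      unfold inc
      rw [sum_comm (s := (F.image lam).filter io)]
      refine sum_congr rfl fun p _ => ?_
      rw [← sum_fiberwise_of_maps_to (t := (F.image lam).filter io) (g := lam)]
      intro b hb
      rw [mem_filter]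
      have h3 := (mem_filter.1 (mem_filter.1 hb).1).1
      exact ⟨mem_image_of_mem _ (hT1F hb), (mem_filter.1 h3).2⟩
    rw [e1, Nat.cast_sum]
    refine sum_le_sum fun L _ => ?_
    have h3 : inc Pq (T1.filter fun b => lam b = L) R ≤
        min Pq.card (F.filter fun b => lam b = L).card := by
      refine le_min ?_ ?_
      · refine inc_le_left _ _ _ fun p hp b hb b' hb' hb1 hb2 => ?_
        rw [mem_filter] at hb hb'
        exact h1 p hp b (hT1F hb.1) b' (hT1F hb'.1) (by rw [hb.2, hb'.2]) hb1 hb2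
      · refine (inc_le_right _ _ _ fun b hb => ?_).trans (card_le_card ?_)
        · have h4 := (mem_filter.1 (mem_filter.1 hb).1).2
          omega
        · exact filter_subset_filter _ hT1F
    exact Nat.cast_le.2 h3
  refine ⟨w, Nat.cast_nonneg _, ?_, ?_⟩
  · -- the square
    have e1 : T'.card ^ 2 ≤ ((F ×ˢ F).filter fun z => io (lam z.1) ∧ io (lam z.2) ∧
        lam z.1 ≠ lam z.2).card := by
      have e2 : ((F ×ˢ F).filter fun z => io (lam z.1) ∧ io (lam z.2) ∧
          lam z.1 ≠ lam z.2).card = ∑ b ∈ F, (F.filter fun b' => io (lam b) ∧ io (lam b') ∧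
          lam b ≠ lam b').card := by
        rw [card_filter, sum_product]
        exact sum_congr rfl fun b _ => (card_filter _ _).symm
      rw [e2, sq, ← smul_eq_mul, ← sum_const]
      refine (sum_le_sum fun b hb => ?_).trans (sum_le_sum_of_subset (s := T')
        ((filter_subset _ _).trans (filter_subset _ _)))
      -- one member
      rw [hT', mem_filter] at hb
      obtain ⟨b0, hb0, hb0L, hmax⟩ := hLs.2 ⟨b, hb.1⟩
      have hbT := mem_filter.1 hb.1
      have e3 : T'.card = (T'.filter fun b' => lam b' = lam b).card +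
          (T'.filter fun b' => ¬ lam b' = lam b).card :=
        (card_filter_add_card_filter_not _).symm
      have e4 : (T'.filter fun b' => lam b' = lam b).card ≤ u (lam b) :=
        card_le_card (filter_subset_filter _ ((filter_subset _ _).trans (filter_subset _ _)))
      have e5 : u (lam b) ≤ Ts.card := by
        refine (hmax b hb.1).trans (card_le_card ?_)
        intro b' hb'
        rw [mem_filter] at hb'
        rw [hTs, mem_filter, hT, mem_filter, hb'.2]
        exact ⟨⟨hb'.1, (mem_filter.1 hb0).2⟩, hb0L⟩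
      rw [e3]
      have e6 : Disjoint Ts (T'.filter fun b' => ¬ lam b' = lam b) := by
        rw [disjoint_left]
        intro x hx hx'
        rw [hTs, mem_filter] at hx
        rw [mem_filter, hT', mem_filter] at hx'
        exact hx'.1.2 hx.2
      calc _ ≤ Ts.card + (T'.filter fun b' => ¬ lam b' = lam b).card :=
            Nat.add_le_add_right (e4.trans e5) _
        _ = (Ts ∪ T'.filter fun b' => ¬ lam b' = lam b).card := (card_union_of_disjoint e6).symm
        _ ≤ _ := by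
            refine card_le_card fun x hx => ?_
            rw [mem_filter]
            rcases mem_union.1 hx with hx | hx
            · rw [hTs, mem_filter, hT, mem_filter] at hx
              refine ⟨hx.1.1, hbT.2, hx.1.2, fun h => hb.2 ?_⟩
              rw [h]; exact hx.2
            · rw [mem_filter, hT', mem_filter, hT, mem_filter] at hx
              exact ⟨hx.1.1.1, hbT.2, hx.1.1.2, fun h => hx.2 h.symm⟩
    rw [hw]
    exact_mod_cast e1
  · rw [hsplit, Nat.cast_add, Nat.cast_add]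
    have ha' : (inc Pq Ts R : ℝ) ≤ Pq.card := Nat.cast_le.2 ha
    linarith

end Fibre

end Pool.Agent.Helper6.FL
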