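import Pool.Agent.Helper6.FL.Main
import Pool.Agent.Helper57.ZF.Stmt

/-!
# MP_ef0af8_co: flats compatible with a flag, the statement

A linear isomorphism `T : ℝ^(2d) → ∏ ℝ^(2 mᵢ)` gives the flag of the subspaces
`Vᵢ = {v : (T v)_j = 0 for all j < i}`, whose quotients `Vᵢ / Vᵢ₊₁` are `ℝ^(2 mᵢ)`.
-/

set_option autoImplicit false

namespace Pool.Agent.Helper6.FL.Stmt

open Pool.Agent.Helper57.ZF.Stmt (Pt Aff pts dirSub dir IsFlat incidences)

/-- Any two distinct members of `F` have at most one point in common. -/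
def PointwiseIntersecting {d : ℕ} (F : Finset (Aff d)) : Prop :=
  ∀ Q ∈ F, ∀ Q' ∈ F, Q ≠ Q' → (pts Q ∩ pts Q').Subsingleton

/-- The linear isomorphisms `ℝ^(2d) → ∏ ℝ^(2 mᵢ)`. -/
def Iso (d : ℕ) {s : ℕ} (m : Fin s → ℕ) : Type := Pt d ≃ₗ[ℝ] ((i : Fin s) → Pt (m i))

/-- The component `i` of `T v`. -/
noncomputable def coord {d s : ℕ} {m : Fin s → ℕ} (T : Iso d m) (i : Fin s) (v : Pt d) :
    Pt (m i) := (show Pt d ≃ₗ[ℝ] ((i : Fin s) → Pt (m i)) from T) v i

/-- The space of directions induced by `Q` in the block `i`: all `(T v)_i`, where `v` is in the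
direction of `Q` and `(T v)_j = 0` for all `j < i`. -/
def block {d s : ℕ} {m : Fin s → ℕ} (T : Iso d m) (Q : Aff d) (i : Fin s) : Set (Pt (m i)) :=
  {z | ∃ v ∈ dir Q, (∀ j, j < i → coord T j v = 0) ∧ coord T i v = z}

/-- The dimension of the space `D`. -/
noncomputable def dim {d : ℕ} (D : Set (Pt d)) : ℕ := Module.finrank ℝ (Submodule.span ℝ D)

/-- The sines of the principal angles of the spaces `D` and `D'` are within a factor `κ` of each
other: the distances to `D'` of any two unit vectors of `D` are comparable. -/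
def Comparable {d : ℕ} (κ : ℝ) (D D' : Set (Pt d)) : Prop :=
  ∀ v ∈ D, ∀ w ∈ D, ‖v‖ = 1 → ‖w‖ = 1 → Metric.infDist v D' ≤ κ * Metric.infDist w D'

/-- The family `F` is compatible with the coordinates `T`: every member induces in every block `i`
a space of directions of dimension `mᵢ`, and any two of these spaces are equal or have comparable
principal angles. -/
def Compatible {d s : ℕ} {m : Fin s → ℕ} (κ : ℝ) (T : Iso d m) (F : Finset (Aff d)) : Prop :=
  (∀ Q ∈ F, ∀ i, dim (block T Q i) = m i) ∧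
    ∀ Q ∈ F, ∀ Q' ∈ F, ∀ i, block T Q i = block T Q' i ∨
      Comparable κ (block T Q i) (block T Q' i)

/-- The coordinate maps. -/
noncomputable def cm {d s : ℕ} {m : Fin s → ℕ} (T : Iso d m) (i : Fin s) :
    Pt d →ₗ[ℝ] Pt (m i) := (LinearMap.proj i).comp
      (show Pt d ≃ₗ[ℝ] ((i : Fin s) → Pt (m i)) from T).toLinearMap

/-- `block` as a subspace. -/
noncomputable def grS {d s : ℕ} {m : Fin s → ℕ} (T : Iso d m) (Q : Aff d) (i : Fin s) :
    Submodule ℝ (Pt (m i)) := FL.gr (cm T) (dirSub Q) i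

theorem gr_eq {d s : ℕ} {m : Fin s → ℕ} (T : Iso d m) (Q : Aff d) (i : Fin s) :
    (grS T Q i : Set (Pt (m i))) = block T Q i := by
  ext z
  exact FL.mem_gr _ _ _ _

open Classical in
theorem incidences_eq' {d : ℕ} (P : Finset (Pt d)) (F : Finset (Aff d)) :
    incidences P F = FL.inc P F fun p Q => p ∈ pts Q := by
  unfold incidences FL.inc
  rw [← Finset.sum_product', ← Finset.card_filter, ← Set.ncard_coe_finset]
  congr 1
  ext z
  rw [Set.mem_ofPred_eq, Finset.mem_coe, Finset.mem_filter, Finset.mem_product]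
  tauto

/-- The theorem. -/
theorem main_stmt : ∀ (d s : ℕ) (m : Fin s → ℕ) (κ : ℝ), (∀ i, 1 ≤ m i) → ∃ C : ℝ,
    ∀ (T : Iso d m) (P : Finset (Pt d)) (F : Finset (Aff d)),
    (∀ Q ∈ F, IsFlat Q) → PointwiseIntersecting F → Compatible κ T F →
    (incidences P F : ℝ) ≤ C * ((P.card : ℝ) ^ (2 / 3 : ℝ) * (F.card : ℝ) ^ (2 / 3 : ℝ) +
      P.card + F.card) := by
  classical
  intro d s m κ hm
  obtain ⟨C, -, hC⟩ := FL.flag_main κ s m hm
  refine ⟨C, ?_⟩
  intro T P F hF hint hcomp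
  -- a point of each flat
  have hpt : ∀ Q ∈ F, ∃ c : Pt d, c ∈ pts Q := fun Q hQ => (hF Q hQ).1
  choose! c hc using hpt
  have hmem : ∀ Q ∈ F, ∀ x : Pt d, x - c Q ∈ dirSub Q ↔ x ∈ pts Q := by
    intro Q hQ x
    have h1 : c Q ∈ (show AffineSubspace ℝ (Pt d) from Q) := hc Q hQ
    have h2 := AffineSubspace.vsub_right_mem_direction_iff_mem h1 x
    rw [vsub_eq_sub] at h2
    exact h2
  have h := hC (Pt d) (cm T) (show Pt d ≃ₗ[ℝ] ((i : Fin s) → Pt (m i)) from T).bijective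
    (Aff d) P F dirSub c ?_ ?_ ?_
  · have e : FL.inc P F (fun p Q => p - c Q ∈ dirSub Q) = FL.inc P F fun p Q => p ∈ pts Q := by
      unfold FL.inc
      refine Finset.sum_congr rfl fun p _ => Finset.sum_congr rfl fun Q hQ => ?_
      by_cases hp : p ∈ pts Q
      · rw [if_pos ((hmem Q hQ p).2 hp), if_pos hp]
      · rw [if_neg fun h => hp ((hmem Q hQ p).1 h), if_neg hp]
    rw [incidences_eq', ← e]
    exact h
  · intro Q hQ i
    have h1 := hcomp.1 Q hQ i
    unfold dim at h1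
    rw [← gr_eq, Submodule.span_eq] at h1
    exact h1
  · intro Q hQ Q' hQ' hne x y h1 h2 h3 h4
    exact hint Q hQ Q' hQ' hne ⟨(hmem Q hQ x).1 h1, (hmem Q' hQ' x).1 h2⟩
      ⟨(hmem Q hQ y).1 h3, (hmem Q' hQ' y).1 h4⟩
  · intro Q hQ Q' hQ' i
    rcases hcomp.2 Q hQ Q' hQ' i with h1 | h1
    · left
      rw [← gr_eq, ← gr_eq] at h1
      exact (SetLike.coe_injective h1 : grS T Q i = grS T Q' i)
    · right
      rw [← gr_eq, ← gr_eq] at h1
      exact h1

/-- In a block of dimension two (`mᵢ = 1`) the condition of comparability is automatic. -/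
theorem comparable_one (κ : ℝ) (hκ : 1 ≤ κ) (D D' : Submodule ℝ (Pt 1))
    (hD : Module.finrank ℝ D = 1) : Comparable κ (D : Set (Pt 1)) (D' : Set (Pt 1)) := by
  intro v hv w hw hv1 hw1
  obtain ⟨z, hz0, hz⟩ := finrank_eq_one_iff'.1 hD
  obtain ⟨a, ha⟩ := hz ⟨v, hv⟩
  obtain ⟨b, hb⟩ := hz ⟨w, hw⟩
  have ha' : v = a • (z : Pt 1) := (congrArg Subtype.val ha).symm
  have hb' : w = b • (z : Pt 1) := (congrArg Subtype.val hb).symm
  have hb0 : b ≠ 0 := by
    rintro rfl
    rw [zero_smul] at hb'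
    rw [hb', norm_zero] at hw1
    exact zero_ne_one hw1
  have hvw : v = (a * b⁻¹) • w := by
    have e : a * b⁻¹ * b = a := by field_simp
    rw [hb', smul_smul, e, ha']
  have hc : ‖a * b⁻¹‖ = 1 := by
    rw [hvw, norm_smul, hw1, mul_one] at hv1
    exact hv1
  have h0 : 0 ≤ Metric.infDist w (D' : Set (Pt 1)) := Metric.infDist_nonneg
  have key : Metric.infDist v (D' : Set (Pt 1)) ≤ Metric.infDist w (D' : Set (Pt 1)) := by
    refine le_of_forall_pos_le_add fun ε hε => ?_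
    obtain ⟨y, hy, hyd⟩ := (Metric.infDist_lt_iff ⟨0, D'.zero_mem⟩).1
      (lt_add_of_pos_right (Metric.infDist w (D' : Set (Pt 1))) hε)
    refine (Metric.infDist_le_dist_of_mem (D'.smul_mem (a * b⁻¹) hy)).trans ?_
    rw [hvw, dist_smul₀, hc, one_mul]
    exact hyd.le
  nlinarith

end Pool.Agent.Helper6.FL.Stmt
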