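import Pool.Agent.Helper6.FL.Core

/-!
# MP_ef0af8_co: the fibration principle, summation over the base
-/

set_option autoImplicit false

open Finset
open scoped Classical

namespace Pool.Agent.Helper6.FL

theorem min_eq_sum (a b M : ℕ) (h : min a b ≤ M) :
    min a b = ∑ t ∈ Icc 1 M, if t ≤ a ∧ t ≤ b then 1 else 0 := by
  rw [← sum_filter, ← card_eq_sum_ones]
  have : (Icc 1 M).filter (fun t => t ≤ a ∧ t ≤ b) = Icc 1 (min a b) := by
    ext t
    rw [mem_filter, mem_Icc, mem_Icc, le_min_iff]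
    have := le_min_iff.1 (le_refl (min a b))
    constructor
    · rintro ⟨⟨h1, h2⟩, h3⟩; exact ⟨h1, h3⟩
    · rintro ⟨h1, h2⟩; exact ⟨⟨h1, (le_min h2.1 h2.2).trans h⟩, h2⟩
  rw [this, Nat.card_Icc]
  omega

theorem level_le {ι : Type} (s : Finset ι) (f : ι → ℕ) (M : ℕ) :
    ∑ t ∈ Icc 1 M, (s.filter fun i => t ≤ f i).card ≤ ∑ i ∈ s, f i := by
  have h1 : ∀ t ∈ Icc 1 M, (s.filter fun i => t ≤ f i).card = ∑ i ∈ s, if t ≤ f i then 1 else 0 :=
    fun t _ => card_filter _ _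
  rw [sum_congr rfl h1, sum_comm]
  refine sum_le_sum fun i _ => ?_
  rw [← sum_filter, ← card_eq_sum_ones]
  calc ((Icc 1 M).filter fun t => t ≤ f i).card ≤ (Icc 1 (f i)).card := by
        refine card_le_card fun t ht => ?_
        rw [mem_filter, mem_Icc] at ht
        rw [mem_Icc]
        exact ⟨ht.1.1, ht.2⟩
    _ = f i := by rw [Nat.card_Icc]; omega

theorem level_mul {ι : Type} (s : Finset ι) (f : ι → ℕ) (t : ℕ) :
    t * (s.filter fun i => t ≤ f i).card ≤ ∑ i ∈ s, f i := by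
  calc t * (s.filter fun i => t ≤ f i).card = ∑ i ∈ s.filter (fun i => t ≤ f i), t := by
        rw [sum_const, smul_eq_mul, mul_comm]
    _ ≤ ∑ i ∈ s.filter (fun i => t ≤ f i), f i :=
        sum_le_sum fun i hi => (mem_filter.1 hi).2
    _ ≤ ∑ i ∈ s, f i := sum_le_sum_of_subset (filter_subset _ _)

/-- The sum of `min (n_q) (u_L)` over the incidences of the base. -/
theorem minsum (K : ℝ) (hK : ∀ M : ℕ, ∑ t ∈ Icc 1 M, (t : ℝ) ^ (-(4 / 3) : ℝ) ≤ K)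
    (C : ℝ) (hC : 0 ≤ C) {γ δ : Type} (X : Finset γ) (Λ : Finset δ) (io : γ → δ → Prop)
    (n : γ → ℕ) (u : δ → ℕ)
    (h3 : ∀ X' ⊆ X, ∀ Λ' ⊆ Λ, (inc X' Λ' io : ℝ) ≤ C * bd X'.card Λ'.card) (N E : ℕ)
    (hN : ∑ q ∈ X, n q = N) (hE : ∑ L ∈ Λ, u L = E) :
    ((∑ q ∈ X, ∑ L ∈ Λ.filter (io q), min (n q) (u L) : ℕ) : ℝ) ≤
      C * (K * ((N : ℝ) ^ (2 / 3 : ℝ) * (E : ℝ) ^ (2 / 3 : ℝ)) + N + E) := by
  have hnN : ∀ q ∈ X, n q ≤ N := fun q hq => by
    rw [← hN]; exact single_le_sum (f := n) (fun _ _ => Nat.zero_le _) hq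
  have e1 : ∑ q ∈ X, ∑ L ∈ Λ.filter (io q), min (n q) (u L) =
      ∑ t ∈ Icc 1 N, inc (X.filter fun q => t ≤ n q) (Λ.filter fun L => t ≤ u L) io := by
    have e2 : ∀ t ∈ Icc 1 N, inc (X.filter fun q => t ≤ n q) (Λ.filter fun L => t ≤ u L) io =
        ∑ q ∈ X, ∑ L ∈ Λ.filter (io q), if t ≤ n q ∧ t ≤ u L then 1 else 0 := by
      intro t _
      unfold inc
      rw [sum_filter]
      refine sum_congr rfl fun q _ => ?_
      by_cases h : t ≤ n q
      · rw [if_pos h, sum_filter, sum_filter]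
        refine sum_congr rfl fun L _ => ?_
        by_cases h1 : t ≤ u L <;> by_cases h2 : io q L <;> simp [h, h1, h2]
      · rw [if_neg h]
        symm
        refine sum_eq_zero fun L _ => ?_
        rw [if_neg fun h' => h h'.1]
    rw [sum_congr rfl e2, sum_comm]
    refine sum_congr rfl fun q hq => ?_
    rw [sum_comm]
    exact sum_congr rfl fun L _ => min_eq_sum _ _ _ ((min_le_left _ _).trans (hnN q hq))
  rw [e1, Nat.cast_sum]
  have h4 : ∀ t ∈ Icc 1 N,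
      ((inc (X.filter fun q => t ≤ n q) (Λ.filter fun L => t ≤ u L) io : ℕ) : ℝ) ≤
      C * ((t : ℝ) ^ (-(4 / 3) : ℝ) * ((N : ℝ) ^ (2 / 3 : ℝ) * (E : ℝ) ^ (2 / 3 : ℝ)) +
        ((X.filter fun q => t ≤ n q).card : ℝ) + ((Λ.filter fun L => t ≤ u L).card : ℝ)) := by
    intro t ht
    rw [mem_Icc] at ht
    refine (h3 _ (filter_subset _ _) _ (filter_subset _ _)).trans
      (mul_le_mul_of_nonneg_left ?_ hC)
    unfold bd
    have ht0 : (0 : ℝ) < t := by exact_mod_cast ht.1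
    have h5 := level_mul X n t
    have h6 := level_mul Λ u t
    rw [hN] at h5
    rw [hE] at h6
    have h5' : ((X.filter fun q => t ≤ n q).card : ℝ) ≤ N / t := by
      rw [le_div_iff₀ ht0, mul_comm]; exact_mod_cast h5
    have h6' : ((Λ.filter fun L => t ≤ u L).card : ℝ) ≤ E / t := by
      rw [le_div_iff₀ ht0, mul_comm]; exact_mod_cast h6
    have h7 : ((X.filter fun q => t ≤ n q).card : ℝ) ^ (2 / 3 : ℝ) *
        ((Λ.filter fun L => t ≤ u L).card : ℝ) ^ (2 / 3 : ℝ) ≤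
        (N / t : ℝ) ^ (2 / 3 : ℝ) * (E / t : ℝ) ^ (2 / 3 : ℝ) :=
      mul_le_mul (Real.rpow_le_rpow (Nat.cast_nonneg _) h5' (by norm_num))
        (Real.rpow_le_rpow (Nat.cast_nonneg _) h6' (by norm_num))
        (Real.rpow_nonneg (Nat.cast_nonneg _) _)
        (Real.rpow_nonneg (div_nonneg (Nat.cast_nonneg _) ht0.le) _)
    have h8 : (N / t : ℝ) ^ (2 / 3 : ℝ) * (E / t : ℝ) ^ (2 / 3 : ℝ) =
        (t : ℝ) ^ (-(4 / 3) : ℝ) * ((N : ℝ) ^ (2 / 3 : ℝ) * (E : ℝ) ^ (2 / 3 : ℝ)) := by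
      rw [Real.div_rpow (Nat.cast_nonneg _) ht0.le, Real.div_rpow (Nat.cast_nonneg _) ht0.le,
        show (-(4 / 3) : ℝ) = -(2 / 3) + -(2 / 3) by norm_num, Real.rpow_add ht0,
        Real.rpow_neg ht0.le]
      ring
    linarith
  refine (sum_le_sum h4).trans ?_
  rw [← mul_sum]
  refine mul_le_mul_of_nonneg_left ?_ hC
  rw [sum_add_distrib, sum_add_distrib, ← sum_mul]
  have h9 := level_le X n N
  have h10 := level_le Λ u N
  rw [hN] at h9
  rw [hE] at h10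
  have h9' : ∑ t ∈ Icc 1 N, ((X.filter fun q => t ≤ n q).card : ℝ) ≤ N := by exact_mod_cast h9
  have h10' : ∑ t ∈ Icc 1 N, ((Λ.filter fun L => t ≤ u L).card : ℝ) ≤ E := by exact_mod_cast h10
  have h11 : (∑ t ∈ Icc 1 N, (t : ℝ) ^ (-(4 / 3) : ℝ)) *
      ((N : ℝ) ^ (2 / 3 : ℝ) * (E : ℝ) ^ (2 / 3 : ℝ)) ≤
      K * ((N : ℝ) ^ (2 / 3 : ℝ) * (E : ℝ) ^ (2 / 3 : ℝ)) :=
    mul_le_mul_of_nonneg_right (hK N) (mul_nonneg (Real.rpow_nonneg (Nat.cast_nonneg _) _)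
      (Real.rpow_nonneg (Nat.cast_nonneg _) _))
  linarith

/-- The fibration principle: the bound for the base and for the fibres gives the bound. -/
theorem core (C : ℝ) (hC : 0 ≤ C) : ∃ C' : ℝ, 0 ≤ C' ∧ ∀ (α β γ δ : Type) (P : Finset α)
    (F : Finset β) (R : α → β → Prop) (π : α → γ) (lam : β → δ) (io : γ → δ → Prop),
    (∀ p ∈ P, ∀ b ∈ F, ∀ b' ∈ F, lam b = lam b' → R p b → R p b' → b = b') →
    (∀ p ∈ P, ∀ b ∈ F, R p b → io (π p) (lam b)) →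
    (∀ b ∈ F, ∀ b' ∈ F, lam b ≠ lam b' → ∀ p ∈ P, ∀ p' ∈ P, io (π p) (lam b) →
      io (π p) (lam b') → io (π p') (lam b) → io (π p') (lam b') → π p = π p') →
    (∀ X ⊆ P.image π, ∀ Λ ⊆ F.image lam, (inc X Λ io : ℝ) ≤ C * bd X.card Λ.card) →
    (∀ q ∈ P.image π, ∀ F' ⊆ F, (∀ b ∈ F', io q (lam b)) →
      (inc (P.filter fun p => π p = q) F' R : ℝ) ≤
        C * bd (P.filter fun p => π p = q).card F'.card) →
    (∀ b ∈ F, ∀ b' ∈ F, b ≠ b' → ∀ p ∈ P, ∀ p' ∈ P, R p b → R p b' → R p' b → R p' b' →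
      p = p') →
    (inc P F R : ℝ) ≤ C' * bd P.card F.card := by
  obtain ⟨K, hK0, hK⟩ := sum_t
  refine ⟨1 + 2 * C + C + C * (K + 1), by positivity, ?_⟩
  intro α β γ δ P F R π lam io h1 hR h2 h3 h4 h5
  set X := P.image π with hX
  set Λ := F.image lam with hΛ
  set n : γ → ℕ := fun q => (P.filter fun p => π p = q).card with hn
  set u : δ → ℕ := fun L => (F.filter fun b => lam b = L).card with hu
  have hN : ∑ q ∈ X, n q = P.card :=
    (card_eq_sum_card_fiberwise (fun p hp => mem_image_of_mem π hp)).symm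
  have hE : ∑ L ∈ Λ, u L = F.card :=
    (card_eq_sum_card_fiberwise (fun b hb => mem_image_of_mem lam hb)).symm
  -- the fibres
  have hfib : ∀ q ∈ X, ∃ w : ℝ, 0 ≤ w ∧ w ^ 2 ≤ (((F ×ˢ F).filter fun z => io q (lam z.1) ∧
      io q (lam z.2) ∧ lam z.1 ≠ lam z.2).card : ℝ) ∧
      (inc (P.filter fun p => π p = q) F R : ℝ) ≤ n q +
        C * (2 * ((n q : ℝ) ^ (2 / 3 : ℝ) * w ^ (2 / 3 : ℝ)) + n q) +
        ∑ L ∈ Λ.filter (io q), ((min (n q) (u L) : ℕ) : ℝ) := by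
    intro q hq
    refine fibre C hC (P.filter fun p => π p = q) F R lam (io q) ?_ ?_ (h4 q hq) ?_
    · intro p hp; exact h1 p (mem_filter.1 hp).1
    · intro p hp b hb hb1
      have := hR p (mem_filter.1 hp).1 b hb hb1
      rwa [(mem_filter.1 hp).2] at this
    · intro b hb b' hb' hne p hp p' hp'
      exact h5 b hb b' hb' hne p (mem_filter.1 hp).1 p' (mem_filter.1 hp').1
  choose! w hw0 hw2 hwi using hfib
  have hinc : inc P F R = ∑ q ∈ X, inc (P.filter fun p => π p = q) F R := by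
    unfold inc
    exact (sum_fiberwise_of_maps_to (fun p hp => mem_image_of_mem π hp) _).symm
  have hA : ∑ q ∈ X, (n q : ℝ) ^ (2 / 3 : ℝ) * w q ^ (2 / 3 : ℝ) ≤
      (P.card : ℝ) ^ (2 / 3 : ℝ) * (F.card : ℝ) ^ (2 / 3 : ℝ) := by
    refine (holder X (fun q => (n q : ℝ)) w (fun q _ => Nat.cast_nonneg _) hw0).trans ?_
    have e1 : ∑ q ∈ X, (n q : ℝ) = P.card := by rw [← hN, Nat.cast_sum]
    rw [e1]
    refine mul_le_mul_of_nonneg_left ?_ (Real.rpow_nonneg (Nat.cast_nonneg _) _)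
    have e2 : ∑ q ∈ X, w q ^ 2 ≤ (F.card : ℝ) ^ 2 := by
      refine (sum_le_sum hw2).trans ?_
      have e3 : ∑ q ∈ X, ((F ×ˢ F).filter fun z => io q (lam z.1) ∧
          io q (lam z.2) ∧ lam z.1 ≠ lam z.2).card ≤ F.card ^ 2 := by
        rw [sq, ← card_product]
        simp only [card_filter]
        rw [sum_comm, card_eq_sum_ones]
        refine sum_le_sum fun z hz => ?_
        rw [mem_product] at hz
        rw [← card_filter, card_le_one]
        intro q hq q' hq'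
        rw [mem_filter, hX, mem_image] at hq hq'
        obtain ⟨⟨p, hp, rfl⟩, ha, hb, hc⟩ := hq
        obtain ⟨⟨p', hp', rfl⟩, ha', hb', -⟩ := hq'
        exact h2 _ hz.1 _ hz.2 hc p hp p' hp' ha hb ha' hb'
      exact_mod_cast e3
    calc (∑ q ∈ X, w q ^ 2) ^ (1 / 3 : ℝ) ≤ ((F.card : ℝ) ^ 2) ^ (1 / 3 : ℝ) :=
          Real.rpow_le_rpow (sum_nonneg fun q _ => sq_nonneg _) e2 (by norm_num)
      _ = _ := by
          rw [← Real.rpow_natCast, ← Real.rpow_mul (Nat.cast_nonneg _)]; norm_num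
  have hJ := minsum K hK C hC X Λ io n u h3 P.card F.card hN hE
  have hJ' : ∑ q ∈ X, ∑ L ∈ Λ.filter (io q), ((min (n q) (u L) : ℕ) : ℝ) ≤
      C * (K * ((P.card : ℝ) ^ (2 / 3 : ℝ) * (F.card : ℝ) ^ (2 / 3 : ℝ)) + P.card + F.card) := by
    refine le_trans (le_of_eq ?_) hJ
    rw [Nat.cast_sum]
    exact sum_congr rfl fun q _ => (Nat.cast_sum _ _).symm
  rw [hinc, Nat.cast_sum]
  refine (sum_le_sum hwi).trans ?_
  rw [sum_add_distrib, sum_add_distrib, ← mul_sum, sum_add_distrib, ← mul_sum]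
  have e1 : ∑ q ∈ X, (n q : ℝ) = P.card := by rw [← hN, Nat.cast_sum]
  rw [e1]
  set Z := (P.card : ℝ) ^ (2 / 3 : ℝ) * (F.card : ℝ) ^ (2 / 3 : ℝ) with hZ
  have hZ0 : 0 ≤ Z := mul_nonneg (Real.rpow_nonneg (Nat.cast_nonneg _) _)
    (Real.rpow_nonneg (Nat.cast_nonneg _) _)
  have hn0 : (0 : ℝ) ≤ P.card := Nat.cast_nonneg _
  have he0 : (0 : ℝ) ≤ F.card := Nat.cast_nonneg _
  unfold bd
  rw [← hZ]
  have hCA := mul_le_mul_of_nonneg_left hA hC
  have g1 : 0 ≤ C * Z := mul_nonneg hC hZ0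
  have g2 : 0 ≤ C * K * P.card := mul_nonneg (mul_nonneg hC hK0) hn0
  have g3 : 0 ≤ C * K * F.card := mul_nonneg (mul_nonneg hC hK0) he0
  have g4 : 0 ≤ C * P.card := mul_nonneg hC hn0
  have g5 : 0 ≤ C * F.card := mul_nonneg hC he0
  nlinarith

end Pool.Agent.Helper6.FL
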