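import Pool.Agent.Helper6.FL.Core2
import Pool.Agent.Helper6.FL.Iso

/-!
# MP_ef0af8_co: the fibration principle, linear algebra
-/

set_option autoImplicit false

open Finset
open scoped Classical

namespace Pool.Agent.Helper6.FL

open Pool.Agent.Helper57.ZF (Sp)

/-- comparable principal angles. -/
def Comp {d : ℕ} (κ : ℝ) (D D' : Submodule ℝ (Sp d)) : Prop :=
  ∀ v ∈ D, ∀ w ∈ D, ‖v‖ = 1 → ‖w‖ = 1 →
    Metric.infDist v (D' : Set (Sp d)) ≤ κ * Metric.infDist w (D' : Set (Sp d))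

section gr

variable {E : Type} [AddCommGroup E] [Module ℝ E] {s : ℕ} {m : Fin s → ℕ}

/-- the direction induced in the block `i`. -/
def gr (φ : ∀ i, E →ₗ[ℝ] Sp (m i)) (D : Submodule ℝ E) (i : Fin s) : Submodule ℝ (Sp (m i)) :=
  Submodule.map (φ i) (D ⊓ ⨅ j : {j : Fin s // j < i}, LinearMap.ker (φ j))

theorem mem_gr (φ : ∀ i, E →ₗ[ℝ] Sp (m i)) (D : Submodule ℝ E) (i : Fin s) (z : Sp (m i)) :
    z ∈ gr φ D i ↔ ∃ v ∈ D, (∀ j < i, φ j v = 0) ∧ φ i v = z := by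
  unfold gr
  rw [Submodule.mem_map]
  constructor
  · rintro ⟨v, hv, rfl⟩
    rw [Submodule.mem_inf, Submodule.mem_iInf] at hv
    exact ⟨v, hv.1, fun j hj => hv.2 ⟨j, hj⟩, rfl⟩
  · rintro ⟨v, hv, hj, rfl⟩
    refine ⟨v, ?_, rfl⟩
    rw [Submodule.mem_inf, Submodule.mem_iInf]
    exact ⟨hv, fun j => hj j.1 j.2⟩

end gr

section step

variable {E : Type} [AddCommGroup E] [Module ℝ E] {s : ℕ} {m : Fin (s + 1) → ℕ}

theorem gr_zero (φ : ∀ i, E →ₗ[ℝ] Sp (m i)) (D : Submodule ℝ E) :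
    gr φ D 0 = Submodule.map (φ 0) D := by
  ext z
  rw [mem_gr, Submodule.mem_map]
  constructor
  · rintro ⟨v, hv, -, h⟩; exact ⟨v, hv, h⟩
  · rintro ⟨v, hv, h⟩; exact ⟨v, hv, fun j hj => absurd hj (Fin.not_lt_zero j), h⟩

/-- the remaining maps on the kernel of the first. -/
def tl (φ : ∀ i, E →ₗ[ℝ] Sp (m i)) (i : Fin s) : LinearMap.ker (φ 0) →ₗ[ℝ] Sp (m i.succ) :=
  (φ i.succ).comp (LinearMap.ker (φ 0)).subtype

theorem gr_tl (φ : ∀ i, E →ₗ[ℝ] Sp (m i)) (D : Submodule ℝ E) (i : Fin s) :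
    gr (tl φ) (D.comap (LinearMap.ker (φ 0)).subtype) i = gr φ D i.succ := by
  ext z
  rw [mem_gr, mem_gr]
  constructor
  · rintro ⟨v, hv, hj, h⟩
    refine ⟨v.1, hv, fun j hj' => ?_, h⟩
    rcases Fin.eq_zero_or_eq_succ j with rfl | ⟨k, rfl⟩
    · exact v.2
    · exact hj k (Fin.succ_lt_succ_iff.1 hj')
  · rintro ⟨v, hv, hj, h⟩
    exact ⟨⟨v, hj 0 (Fin.succ_pos i)⟩, hv, fun j hj' => hj j.succ (Fin.succ_lt_succ_iff.2 hj'), h⟩

theorem tl_bij (φ : ∀ i, E →ₗ[ℝ] Sp (m i)) (h : Function.Bijective fun x i => φ i x) :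
    Function.Bijective fun x i => tl φ i x := by
  constructor
  · intro x y hxy
    apply Subtype.ext
    apply h.1
    funext i
    rcases Fin.eq_zero_or_eq_succ i with rfl | ⟨k, rfl⟩
    · change φ 0 x.1 = φ 0 y.1
      have h1 : φ 0 x.1 = 0 := x.2
      have h2 : φ 0 y.1 = 0 := y.2
      rw [h1, h2]
    · exact congrFun hxy k
  · intro z
    obtain ⟨x, hx⟩ := h.2 (Fin.cons 0 z)
    refine ⟨⟨x, ?_⟩, ?_⟩
    · have := congrFun hx 0
      exact this
    · funext i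
      have := congrFun hx i.succ
      exact this

end step

theorem fin_of_bij {E : Type} [AddCommGroup E] [Module ℝ E] {s : ℕ} {m : Fin s → ℕ}
    (φ : ∀ i, E →ₗ[ℝ] Sp (m i)) (h : Function.Bijective fun x i => φ i x) :
    FiniteDimensional ℝ E ∧ Module.finrank ℝ E = ∑ i, 2 * m i := by
  have e : E ≃ₗ[ℝ] (∀ i, Sp (m i)) := LinearEquiv.ofBijective (LinearMap.pi φ) h
  refine ⟨Module.Finite.equiv e.symm, ?_⟩
  rw [e.finrank_eq, Module.finrank_pi_fintype]
  exact sum_congr rfl fun i _ => finrank_euclideanSpace_fin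

/-- the dimension is the sum of the dimensions of the blocks. -/
theorem finrank_gr : ∀ (s : ℕ) (m : Fin s → ℕ) (E : Type) [AddCommGroup E] [Module ℝ E]
    (φ : ∀ i, E →ₗ[ℝ] Sp (m i)), Function.Bijective (fun x i => φ i x) → ∀ D : Submodule ℝ E,
    Module.finrank ℝ D = ∑ i, Module.finrank ℝ (gr φ D i) := by
  intro s
  induction s with
  | zero =>
    intro m E _ _ φ h D
    have hs : Subsingleton E := h.1.subsingleton
    rw [Finset.univ_eq_empty, sum_empty]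
    exact Module.finrank_zero_of_subsingleton
  | succ s ih =>
    intro m E _ _ φ h D
    have := (fin_of_bij φ h).1
    rw [Fin.sum_univ_succ, gr_zero]
    have h1 := ih (fun i => m i.succ) (LinearMap.ker (φ 0)) (tl φ) (tl_bij φ h)
      (D.comap (LinearMap.ker (φ 0)).subtype)
    have h2 : ∑ i, Module.finrank ℝ (gr (tl φ) (D.comap (LinearMap.ker (φ 0)).subtype) i) =
        ∑ i : Fin s, Module.finrank ℝ (gr φ D i.succ) :=
      sum_congr rfl fun i _ => by rw [gr_tl φ D i]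
    rw [h2] at h1
    rw [← h1]
    have h3 := LinearMap.finrank_range_add_finrank_ker ((φ 0).domRestrict D)
    rw [LinearMap.range_domRestrict] at h3
    rw [← h3]
    congr 1
    refine LinearEquiv.finrank_eq ?_
    refine
      { toFun := fun x => ⟨⟨x.1.1, x.2⟩, x.1.2⟩
        invFun := fun x => ⟨⟨x.1.1, x.2⟩, x.1.2⟩
        map_add' := fun _ _ => rfl
        map_smul' := fun _ _ => rfl
        left_inv := fun _ => rfl
        right_inv := fun _ => rfl }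

/-- two subspaces with comparable angles are equal or transversal. -/
theorem comp_inf {d : ℕ} {κ : ℝ} {D D' : Submodule ℝ (Sp d)} (h : Comp κ D D') (hne : ¬ D ≤ D') :
    D ⊓ D' = ⊥ := by
  rw [eq_bot_iff]
  intro z hz
  rw [Submodule.mem_bot]
  by_contra hz0
  obtain ⟨v, hv, hv'⟩ := SetLike.not_le_iff_exists.1 hne
  have hv0 : v ≠ 0 := fun h0 => hv' (by rw [h0]; exact zero_mem _)
  have h1 := h (‖v‖⁻¹ • v) (D.smul_mem _ hv) (‖z‖⁻¹ • z) (D.smul_mem _ hz.1)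
    (norm_smul_inv_norm hv0) (norm_smul_inv_norm hz0)
  have h2 : Metric.infDist (‖z‖⁻¹ • z) (D' : Set (Sp d)) = 0 :=
    Metric.infDist_zero_of_mem (D'.smul_mem _ hz.2)
  rw [h2, mul_zero] at h1
  have h3 : Metric.infDist (‖v‖⁻¹ • v) (D' : Set (Sp d)) = 0 := le_antisymm h1 Metric.infDist_nonneg
  have hcl : IsClosed (D' : Set (Sp d)) := D'.closed_of_finiteDimensional
  have h4 := (hcl.mem_iff_infDist_zero ⟨0, D'.zero_mem⟩).2 h3
  apply hv'
  have h5 : v = ‖v‖ • (‖v‖⁻¹ • v) := by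
    rw [smul_smul, mul_inv_cancel₀ (norm_ne_zero_iff.2 hv0), one_smul]
  rw [h5]
  exact D'.smul_mem _ h4

/-- the base theorem in the present notation. -/
theorem base (d : ℕ) (κ : ℝ) : ∃ C : ℝ, 0 ≤ C ∧ ∀ (X : Finset (Sp d))
    (Λ : Finset (AffineSubspace ℝ (Sp d))),
    (∀ L ∈ Λ, (L : Set (Sp d)).Nonempty ∧ Module.finrank ℝ L.direction = d) →
    (∀ L ∈ Λ, ∀ L' ∈ Λ, L ≠ L' → ∀ q ∈ X, q ∈ L → q ∈ L' → Comp κ L.direction L'.direction) →
    (inc X Λ (fun q L => q ∈ L) : ℝ) ≤ C * bd X.card Λ.card := by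
  obtain ⟨C, hC⟩ := Iso.iso d κ
  refine ⟨max C 0, le_max_right _ _, ?_⟩
  intro X Λ h1 h2
  have h3 := hC X Λ h1 h2
  have e1 : (Pool.Agent.Helper57.ZF.incidences d X Λ : ℝ) = inc X Λ (fun q L => q ∈ L) := by
    unfold Pool.Agent.Helper57.ZF.incidences inc
    rw [card_filter, sum_product]
  rw [← e1]
  refine h3.trans ?_
  exact mul_le_mul_of_nonneg_right (le_max_left _ _)
    (bd_nonneg (Nat.cast_nonneg _) (Nat.cast_nonneg _))

end Pool.Agent.Helper6.FL
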