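import Pool.Agent.Helper6.FL.Geo

/-!
# MP_ef0af8_co: flats compatible with a flag, main induction
-/

set_option autoImplicit false

open Finset
open scoped Classical

namespace Pool.Agent.Helper6.FL

open Pool.Agent.Helper57.ZF (Sp)

/-- two flats over the same base flat which meet have a common direction. -/
theorem inf_ne_bot {E : Type} [AddCommGroup E] [Module ℝ E] {s : ℕ} {m : Fin (s + 1) → ℕ}
    (φ : ∀ i, E →ₗ[ℝ] Sp (m i)) (hφ : Function.Bijective fun x i => φ i x) (hm : 1 ≤ m 0)
    (D D' : Submodule ℝ E) (hD : ∀ i, Module.finrank ℝ (gr φ D i) = m i)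
    (hD' : ∀ i, Module.finrank ℝ (gr φ D' i) = m i)
    (hmap : Submodule.map (φ 0) D = Submodule.map (φ 0) D') : D ⊓ D' ≠ ⊥ := by
  obtain ⟨hfin, hdim⟩ := fin_of_bij φ hφ
  have h1 : Module.finrank ℝ D = m 0 + ∑ i : Fin s, m i.succ := by
    rw [finrank_gr _ m E φ hφ D, Fin.sum_univ_succ, hD 0]
    congr 1
    exact sum_congr rfl fun i _ => hD i.succ
  have h2 : Module.finrank ℝ D' = m 0 + ∑ i : Fin s, m i.succ := by
    rw [finrank_gr _ m E φ hφ D', Fin.sum_univ_succ, hD' 0]
    congr 1
    exact sum_congr rfl fun i _ => hD' i.succ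
  have h3 : Module.finrank ℝ (LinearMap.ker (φ 0)) = 2 * ∑ i : Fin s, m i.succ := by
    have := (fin_of_bij (tl φ) (tl_bij φ hφ)).2
    rw [this, mul_sum]
  set G := Submodule.map (φ 0) D with hG
  have hGdim : Module.finrank ℝ G = m 0 := by rw [hG, ← gr_zero, hD 0]
  have hsurj : Function.Surjective (φ 0) := by
    intro z
    obtain ⟨x, hx⟩ := hφ.2 (Fin.cons z fun _ => 0)
    exact ⟨x, congrFun hx 0⟩
  have h4 : Module.finrank ℝ (G.comap (φ 0)) = m 0 + 2 * ∑ i : Fin s, m i.succ := by
    have h5 := LinearMap.finrank_range_add_finrank_ker ((φ 0).domRestrict (G.comap (φ 0)))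
    rw [LinearMap.range_domRestrict, Submodule.map_comap_eq_of_surjective hsurj, hGdim] at h5
    rw [← h5]
    congr 1
    rw [← h3]
    refine LinearEquiv.finrank_eq ?_
    refine
      { toFun := fun x => ⟨x.1.1, x.2⟩
        invFun := fun x => ⟨⟨x.1, by
          rw [Submodule.mem_comap, (show φ 0 x.1 = 0 from x.2)]; exact G.zero_mem⟩, x.2⟩
        map_add' := fun _ _ => rfl
        map_smul' := fun _ _ => rfl
        left_inv := fun _ => rfl
        right_inv := fun _ => rfl }
  have h6 : D ⊔ D' ≤ G.comap (φ 0) := by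
    refine sup_le ?_ ?_
    · intro x hx
      exact Submodule.mem_map_of_mem hx
    · intro x hx
      rw [Submodule.mem_comap, hmap]
      exact Submodule.mem_map_of_mem hx
  have h7 := Submodule.finrank_sup_add_finrank_inf_eq D D'
  have h8 := Submodule.finrank_mono h6
  intro h9
  rw [h9, finrank_bot, h1, h2] at h7
  rw [h4] at h8
  omega

/-- The main theorem, for indexed families of flats `c b + D b`. -/
theorem flag_main (κ : ℝ) : ∀ (s : ℕ) (m : Fin s → ℕ), (∀ i, 1 ≤ m i) → ∃ C : ℝ, 0 ≤ C ∧
    ∀ (E : Type) [AddCommGroup E] [Module ℝ E] (φ : ∀ i, E →ₗ[ℝ] Sp (m i)),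
    Function.Bijective (fun x i => φ i x) → ∀ (β : Type) (P : Finset E) (F : Finset β)
    (D : β → Submodule ℝ E) (c : β → E),
    (∀ b ∈ F, ∀ i, Module.finrank ℝ (gr φ (D b) i) = m i) →
    (∀ b ∈ F, ∀ b' ∈ F, b ≠ b' → ∀ x y, x - c b ∈ D b → x - c b' ∈ D b' → y - c b ∈ D b →
      y - c b' ∈ D b' → x = y) →
    (∀ b ∈ F, ∀ b' ∈ F, ∀ i, gr φ (D b) i = gr φ (D b') i ∨
      Comp κ (gr φ (D b) i) (gr φ (D b') i)) →
    (inc P F (fun p b => p - c b ∈ D b) : ℝ) ≤ C * bd P.card F.card := by
  intro s
  induction s with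
  | zero =>
    intro m _
    refine ⟨1, zero_le_one, ?_⟩
    intro E _ _ φ hφ β P F D c _ _ _
    have hs : Subsingleton E := hφ.1.subsingleton
    have h1 : inc P F (fun p b => p - c b ∈ D b) ≤ F.card := by
      refine inc_le_right _ _ _ fun b _ => ?_
      rw [card_le_one]
      intro x _ y _
      exact Subsingleton.elim _ _
    have h2 : (inc P F (fun p b => p - c b ∈ D b) : ℝ) ≤ F.card := Nat.cast_le.2 h1
    refine h2.trans ?_
    rw [one_mul]
    unfold bd
    have h3 : (0 : ℝ) ≤ P.card := Nat.cast_nonneg _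
    have h4 : (0 : ℝ) ≤ (P.card : ℝ) ^ (2 / 3 : ℝ) * (F.card : ℝ) ^ (2 / 3 : ℝ) :=
      mul_nonneg (Real.rpow_nonneg (Nat.cast_nonneg _) _) (Real.rpow_nonneg (Nat.cast_nonneg _) _)
    linarith
  | succ s ih =>
    intro m hm
    obtain ⟨C1, hC1, hbase⟩ := base (m 0) κ
    obtain ⟨C2, hC2, hfib⟩ := ih (fun i => m i.succ) fun i => hm i.succ
    obtain ⟨C, hC, hcore⟩ := core (max C1 C2) (hC1.trans (le_max_left _ _))
    refine ⟨C, hC, ?_⟩
    intro E _ _ φ hφ β P F D c h1 h2 h3
    have hmul : ∀ (C' : ℝ) (n e : ℕ), C' ≤ max C1 C2 → C' * bd n e ≤ max C1 C2 * bd n e :=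
      fun C' n e h => mul_le_mul_of_nonneg_right h
        (bd_nonneg (Nat.cast_nonneg _) (Nat.cast_nonneg _))
    set lam : β → AffineSubspace ℝ (Sp (m 0)) := fun b =>
      AffineSubspace.mk' (φ 0 (c b)) (Submodule.map (φ 0) (D b)) with hlam
    have hmem : ∀ (q : Sp (m 0)) b, q ∈ lam b ↔ q - φ 0 (c b) ∈ Submodule.map (φ 0) (D b) := by
      intro q b
      rw [hlam, AffineSubspace.mem_mk', vsub_eq_sub]
    have hdir : ∀ b, (lam b).direction = Submodule.map (φ 0) (D b) := fun b =>
      AffineSubspace.direction_mk' _ _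
    have hlift : ∀ x b, x - c b ∈ D b → φ 0 x ∈ lam b := by
      intro x b h
      rw [hmem, ← map_sub]
      exact Submodule.mem_map_of_mem h
    have hg0 : ∀ b ∈ F, ∀ b' ∈ F, Submodule.map (φ 0) (D b) = Submodule.map (φ 0) (D b') ∨
        Comp κ (Submodule.map (φ 0) (D b)) (Submodule.map (φ 0) (D b')) := by
      intro b hb b' hb'
      have := h3 b hb b' hb' 0
      rwa [gr_zero, gr_zero] at this
    have hrank : ∀ b ∈ F, Module.finrank ℝ (Submodule.map (φ 0) (D b)) = m 0 := by
      intro b hb
      have := h1 b hb 0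
      rwa [gr_zero] at this
    -- equal directions and a common point
    have heq : ∀ b b', Submodule.map (φ 0) (D b) = Submodule.map (φ 0) (D b') →
        ∀ q, q ∈ lam b → q ∈ lam b' → lam b = lam b' := by
      intro b b' h q hq hq'
      exact AffineSubspace.ext_of_direction_eq (by rw [hdir, hdir, h]) ⟨q, hq, hq'⟩
    have h5 : ∀ b ∈ F, ∀ b' ∈ F, b ≠ b' → ∀ p ∈ P, ∀ p' ∈ P, p - c b ∈ D b → p - c b' ∈ D b' →
        p' - c b ∈ D b → p' - c b' ∈ D b' → p = p' :=
      fun b hb b' hb' hne p _ p' _ g1 g2 g3 g4 => h2 b hb b' hb' hne p p' g1 g2 g3 g4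
    refine hcore E β (Sp (m 0)) (AffineSubspace ℝ (Sp (m 0))) P F (fun p b => p - c b ∈ D b) (φ 0)
      lam (fun q L => q ∈ L) ?_ ?_ ?_ ?_ ?_ h5
    · -- (1)
      intro p _ b hb b' hb' hbb hpb hpb'
      by_contra hne
      have hmap : Submodule.map (φ 0) (D b) = Submodule.map (φ 0) (D b') := by
        rw [← hdir, ← hdir, hbb]
      have h6 := inf_ne_bot φ hφ (hm 0) (D b) (D b') (h1 b hb) (h1 b' hb') hmap
      obtain ⟨v, hv, hv0⟩ := Submodule.exists_mem_ne_zero_of_ne_bot h6
      have h7 := h2 b hb b' hb' hne (p + v) p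
        (by rw [show p + v - c b = (p - c b) + v by abel]; exact (D b).add_mem hpb hv.1)
        (by rw [show p + v - c b' = (p - c b') + v by abel]; exact (D b').add_mem hpb' hv.2)
        hpb hpb'
      exact hv0 (by simpa using h7)
    · -- incidences project
      intro p _ b _ h
      exact hlift p b h
    · -- (2)
      intro b hb b' hb' hne p _ p' _ g1 g2 g3 g4
      rcases hg0 b hb b' hb' with h | h
      · exact absurd (heq b b' h _ g1 g2) hne
      · have hnle : ¬ Submodule.map (φ 0) (D b) ≤ Submodule.map (φ 0) (D b') := by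
          intro hle
          have := Submodule.eq_of_le_of_finrank_eq hle (by rw [hrank b hb, hrank b' hb'])
          exact hne (heq b b' this _ g1 g2)
        have hbot := comp_inf h hnle
        have hmem2 : φ 0 p - φ 0 p' ∈ Submodule.map (φ 0) (D b) ⊓ Submodule.map (φ 0) (D b') := by
          rw [hmem] at g1 g2 g3 g4
          constructor
          · rw [show φ 0 p - φ 0 p' = (φ 0 p - φ 0 (c b)) - (φ 0 p' - φ 0 (c b)) by abel]
            exact Submodule.sub_mem _ g1 g3
          · rw [show φ 0 p - φ 0 p' = (φ 0 p - φ 0 (c b')) - (φ 0 p' - φ 0 (c b')) by abel]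
            exact Submodule.sub_mem _ g2 g4
        rw [hbot, Submodule.mem_bot] at hmem2
        exact sub_eq_zero.1 hmem2
    · -- (3) the base
      intro X _ Λ hΛ
      refine le_trans (hbase X Λ ?_ ?_) (hmul C1 _ _ (le_max_left _ _))
      · intro L hL
        obtain ⟨b, hb, rfl⟩ := mem_image.1 (hΛ hL)
        exact ⟨⟨φ 0 (c b), AffineSubspace.self_mem_mk' _ _⟩, by rw [hdir, hrank b hb]⟩
      · intro L hL L' hL' hne q _ hq hq'
        obtain ⟨b, hb, rfl⟩ := mem_image.1 (hΛ hL)
        obtain ⟨b', hb', rfl⟩ := mem_image.1 (hΛ hL')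
        rw [hdir, hdir]
        rcases hg0 b hb b' hb' with h | h
        · exact absurd (heq b b' h q hq hq') hne
        · exact h
    · -- (4) the fibres
      intro q hq F' hF' hqF'
      obtain ⟨x, -, hx⟩ := (@Finset.mem_image _ _ (fun a b => Classical.propDecidable (a = b))
        (φ 0) P q).1 hq
      -- points of the flats over `q`
      have hy : ∀ b ∈ F', ∃ z : LinearMap.ker (φ 0), (z : E) + x - c b ∈ D b := by
        intro b hb
        have := hqF' b hb
        rw [hmem, Submodule.mem_map] at this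
        obtain ⟨v, hv, hv'⟩ := this
        refine ⟨⟨c b + v - x, ?_⟩, ?_⟩
        · rw [LinearMap.mem_ker, map_sub, map_add, hv', hx]; abel
        · rw [show (c b + v - x) + x - c b = v by abel]; exact hv
      choose! z hz using hy
      set P' : Finset (LinearMap.ker (φ 0)) := (P.filter fun p => φ 0 p = q).attach.image
        (fun p => ⟨p.1 - x, by
          rw [LinearMap.mem_ker, map_sub, (mem_filter.1 p.2).2, hx, sub_self]⟩) with hP'
      have hfib' := hfib (LinearMap.ker (φ 0)) (tl φ) (tl_bij φ hφ) β P' F'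
        (fun b => (D b).comap (LinearMap.ker (φ 0)).subtype) z ?_ ?_ ?_
      · have hinj : Function.Injective
            (fun p : {p // p ∈ P.filter fun p => φ 0 p = q} => (⟨p.1 - x, by
            rw [LinearMap.mem_ker, map_sub, (mem_filter.1 p.2).2, hx, sub_self]⟩ :
              LinearMap.ker (φ 0))) := by
          intro a b hab
          apply Subtype.ext
          have := congrArg Subtype.val hab
          exact sub_left_injective this
        have hcard : P'.card = (P.filter fun p => φ 0 p = q).card := by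
          rw [hP', card_image_of_injective _ hinj, card_attach]
        have hinc : inc P' F' (fun p b => p - z b ∈ (D b).comap (LinearMap.ker (φ 0)).subtype) =
            inc (P.filter fun p => φ 0 p = q) F' (fun p b => p - c b ∈ D b) := by
          unfold inc
          rw [hP', sum_image (fun a _ b _ h => hinj h), ← sum_attach (P.filter fun p => φ 0 p = q)]
          refine sum_congr rfl fun p _ => sum_congr rfl fun b hb => ?_
          have hzb := hz b hb
          have hiff : ((⟨p.1 - x, by
            rw [LinearMap.mem_ker, map_sub, (mem_filter.1 p.2).2, hx, sub_self]⟩ :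
              LinearMap.ker (φ 0)) - z b ∈ (D b).comap (LinearMap.ker (φ 0)).subtype) ↔
              p.1 - c b ∈ D b := by
            rw [Submodule.mem_comap]
            change (p.1 - x) - (z b : E) ∈ D b ↔ p.1 - c b ∈ D b
            rw [show (p.1 - x) - (z b : E) = (p.1 - c b) - ((z b : E) + x - c b) by abel]
            exact (D b).sub_mem_iff_left hzb
          by_cases h : p.1 - c b ∈ D b
          · rw [if_pos (hiff.2 h), if_pos h]
          · rw [if_neg (fun h' => h (hiff.1 h')), if_neg h]
        rw [hinc, hcard] at hfib'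
        have h9 : (inc (P.filter fun p => φ 0 p = q) F' (fun p b => p - c b ∈ D b) : ℝ) ≤
            max C1 C2 * bd (P.filter fun p => φ 0 p = q).card F'.card :=
          hfib'.trans (hmul C2 _ _ (le_max_right _ _))
        convert h9
      · intro b hb i
        rw [gr_tl]
        exact h1 b (hF' hb) i.succ
      · intro b hb b' hb' hne u v g1 g2 g3 g4
        apply Subtype.ext
        have key : ∀ b ∈ F', ∀ w : LinearMap.ker (φ 0),
            w - z b ∈ (D b).comap (LinearMap.ker (φ 0)).subtype → (w : E) + x - c b ∈ D b := by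
          intro b hb w hw
          rw [Submodule.mem_comap] at hw
          have h6 : (w : E) - (z b : E) ∈ D b := hw
          rw [show (w : E) + x - c b = ((w : E) - (z b : E)) + ((z b : E) + x - c b) by abel]
          exact (D b).add_mem h6 (hz b hb)
        have := h2 b (hF' hb) b' (hF' hb') hne ((u : E) + x) ((v : E) + x) (key b hb u g1)
          (key b' hb' u g2) (key b hb v g3) (key b' hb' v g4)
        exact add_right_cancel this
      · intro b hb b' hb' i
        rw [gr_tl, gr_tl]
        exact h3 b (hF' hb) b' (hF' hb') i.succ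

end Pool.Agent.Helper6.FL
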